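import Mathlib

/-!
Extended promotion on the labelings of a finite poset (Defant–Kravitz).
-/

open Finset

namespace Pool.Agent.R543.Promo

open Classical

/-- A labeling of `P`: a bijection onto `{1,…,n}`, the label `k` being coded by the
element `k - 1` of `Fin n`. -/
abbrev Labeling (P : Type*) [Fintype P] : Type _ := P ≃ Fin (Fintype.card P)

section
variable {P : Type*} [Fintype P] [PartialOrder P]

/-- the label `L(x) ∈ {1,…,n}` -/
def lab (L : Labeling P) (x : P) : ℕ := (L x : ℕ) + 1

/-- the `L`-successor of a non-maximal `x`: the element `y > x` with the smallest label;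
for a maximal `x` the value is `x` itself. -/
noncomputable def next (L : Labeling P) (x : P) : P :=
  if h : ∃ y, x < y ∧ ∀ z, x < z → lab L y ≤ lab L z then h.choose else x

/-- the sequence `v₁ = L⁻¹(1)`, `v_{i+1} =` the `L`-successor of `v_i`
(constant from the first maximal element on) -/
noncomputable def chainSeq [Nonempty P] (L : Labeling P) : ℕ → P
  | 0 => L.symm ⟨0, Fintype.card_pos⟩
  | i + 1 => next L (chainSeq L i)

/-- `x` belongs to the promotion chain of `L` -/
def InChain [Nonempty P] (L : Labeling P) (x : P) : Prop := ∃ i, chainSeq L i = x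

/-- the label of `x` in `∂(L)` -/
noncomputable def promLab [Nonempty P] (L : Labeling P) (x : P) : ℕ :=
  if InChain L x then (if ∃ y, x < y then lab L (next L x) - 1 else Fintype.card P)
  else lab L x - 1

/-- degree of noninvertibility of a self-map of a finite set -/
noncomputable def deg {X : Type*} [Fintype X] (f : X → X) : ℚ :=
  (∑ x : X, ((univ.filter (fun y => f y = x)).card : ℚ) ^ 2) / Fintype.card X

lemma next_spec {L : Labeling P} {x : P} (h : ∃ y, x < y) :
    x < next L x ∧ ∀ z, x < z → lab L (next L x) ≤ lab L z := by
  have h' : ∃ y, x < y ∧ ∀ z, x < z → lab L y ≤ lab L z := by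
    obtain ⟨y, hy⟩ := h
    obtain ⟨m, hm, hmin⟩ := exists_min_image (univ.filter (fun z => x < z)) (lab L)
      ⟨y, by simpa using hy⟩
    refine ⟨m, by simpa using hm, fun z hz => hmin z (by simpa using hz)⟩
  unfold next
  rw [dif_pos h']
  exact h'.choose_spec

lemma next_max {L : Labeling P} {x : P} (h : ¬ ∃ y, x < y) : next L x = x := by
  unfold next
  rw [dif_neg]
  rintro ⟨y, hy, _⟩
  exact h ⟨y, hy⟩

lemma le_next (L : Labeling P) (x : P) : x ≤ next L x := by
  by_cases h : ∃ y, x < y
  · exact (next_spec h).1.le
  · rw [next_max h]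

lemma lab_inj {L : Labeling P} {x y : P} (h : lab L x = lab L y) : x = y := by
  apply L.injective
  apply Fin.ext
  unfold lab at h
  omega

lemma lab_pos (L : Labeling P) (x : P) : 1 ≤ lab L x := by unfold lab; omega
lemma lab_le (L : Labeling P) (x : P) : lab L x ≤ Fintype.card P := by
  unfold lab; have := (L x).isLt; omega

variable [Nonempty P]

lemma chainSeq_mono (L : Labeling P) : Monotone (chainSeq L) :=
  monotone_nat_of_le_succ (fun i => le_next L _)

lemma lab_first (L : Labeling P) : lab L (chainSeq L 0) = 1 := by
  unfold lab chainSeq; simp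

lemma inChain_next {L : Labeling P} {x : P} (h : InChain L x) : InChain L (next L x) := by
  obtain ⟨i, rfl⟩ := h
  exact ⟨i + 1, rfl⟩

lemma inChain_total {L : Labeling P} {x y : P} (hx : InChain L x) (hy : InChain L y) :
    x ≤ y ∨ y ≤ x := by
  obtain ⟨i, rfl⟩ := hx
  obtain ⟨j, rfl⟩ := hy
  rcases le_total i j with h | h
  · exact Or.inl (chainSeq_mono L h)
  · exact Or.inr (chainSeq_mono L h)

lemma inChain_next_le {L : Labeling P} {x y : P} (hx : InChain L x) (hy : InChain L y)
    (h : x < y) : next L x ≤ y := by
  obtain ⟨i, rfl⟩ := hx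
  obtain ⟨j, rfl⟩ := hy
  have hij : i < j := by
    by_contra hc
    exact absurd (lt_of_lt_of_le h (chainSeq_mono L (not_lt.1 hc))) (lt_irrefl _)
  exact chainSeq_mono L (Nat.succ_le_of_lt hij)

/-- a chain element other than the first is a successor of a nonmaximal chain element -/
lemma inChain_pred {L : Labeling P} {y : P} (hy : InChain L y) (hy1 : lab L y ≠ 1) :
    ∃ x, InChain L x ∧ x < y ∧ next L x = y := by
  obtain ⟨j, rfl⟩ := hy
  induction j with
  | zero => exact absurd (lab_first L) hy1
  | succ j ih =>
    by_cases h : ∃ z, chainSeq L j < z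
    · exact ⟨chainSeq L j, ⟨j, rfl⟩, (next_spec h).1, rfl⟩
    · have e : chainSeq L (j + 1) = chainSeq L j := next_max h
      rw [e] at hy1 ⊢
      exact ih hy1

/-- the chain reaches a maximal element -/
lemma exists_max_inChain (L : Labeling P) : ∃ v, InChain L v ∧ ¬ ∃ y, v < y := by
  have hne : (univ.filter (fun x => InChain L x)).Nonempty :=
    ⟨chainSeq L 0, by simpa using ⟨0, rfl⟩⟩
  obtain ⟨v, hv⟩ := exists_maximal hne
  refine ⟨v, by simpa using hv.1, ?_⟩
  intro h
  have h1 := next_spec (L := L) h
  have h2 : next L v ≤ v := hv.2 (by simpa using inChain_next (by simpa using hv.1)) h1.1.le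
  exact absurd (lt_of_lt_of_le h1.1 h2) (lt_irrefl _)

lemma lab_next_ge {L : Labeling P} {x : P} (hx : InChain L x) (h : ∃ y, x < y) :
    2 ≤ lab L (next L x) := by
  have h1 := (next_spec (L := L) h).1
  by_contra hc
  have h2 := lab_pos L (next L x)
  have h3 : lab L (next L x) = lab L (chainSeq L 0) := by rw [lab_first]; omega
  have h4 := lab_inj h3
  obtain ⟨i, rfl⟩ := hx
  have := chainSeq_mono L (Nat.zero_le i)
  rw [← h4] at this
  exact absurd (lt_of_lt_of_le h1 this) (lt_irrefl _)

lemma lab_notIn_ge {L : Labeling P} {x : P} (hx : ¬ InChain L x) : 2 ≤ lab L x := by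
  by_contra hc
  have h2 := lab_pos L x
  have h3 : lab L x = lab L (chainSeq L 0) := by rw [lab_first]; omega
  exact hx ⟨0, (lab_inj h3).symm⟩

lemma promLab_bounds (L : Labeling P) (x : P) : 1 ≤ promLab L x ∧ promLab L x ≤ Fintype.card P := by
  unfold promLab
  split_ifs with h1 h2
  · have := lab_next_ge h1 h2
    have := lab_le L (next L x)
    omega
  · exact ⟨Fintype.card_pos, le_rfl⟩
  · have := lab_notIn_ge h1
    have := lab_le L x
    omega

lemma promLab_inj (L : Labeling P) : Function.Injective (promLab L) := by
  intro x y hxy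
  unfold promLab at hxy
  have hn := Fintype.card_pos (α := P)
  split_ifs at hxy with a1 a2 b1 b2 b1 b2 b1 b2
  · -- both nonmaximal chain elements
    have e1 := lab_next_ge a1 a2
    have e2 := lab_next_ge b1 b2
    have e3 : next L x = next L y := lab_inj (L := L) (by omega)
    rcases inChain_total a1 b1 with h | h
    · rcases h.eq_or_lt with h | h
      · exact h
      · have := inChain_next_le a1 b1 h
        rw [e3] at this
        exact absurd (lt_of_lt_of_le (next_spec (L := L) b2).1 this) (lt_irrefl _)
    · rcases h.eq_or_lt with h | h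
      · exact h.symm
      · have := inChain_next_le b1 a1 h
        rw [← e3] at this
        exact absurd (lt_of_lt_of_le (next_spec (L := L) a2).1 this) (lt_irrefl _)
  · have := lab_le L (next L x)
    have := lab_next_ge a1 a2
    omega
  · have e1 := lab_next_ge a1 a2
    have e2 := lab_notIn_ge b1
    have e3 : next L x = y := lab_inj (L := L) (by omega)
    exact absurd (e3 ▸ inChain_next a1) b1
  · have := lab_le L (next L y)
    have := lab_next_ge b1 b2
    omega
  · rcases inChain_total a1 b1 with h | h
    · rcases h.eq_or_lt with h | h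
      · exact h
      · exact absurd ⟨y, h⟩ a2
    · rcases h.eq_or_lt with h | h
      · exact h.symm
      · exact absurd ⟨x, h⟩ b2
  · have := lab_le L y
    have := lab_notIn_ge b1
    omega
  · have e1 := lab_next_ge b1 b2
    have e2 := lab_notIn_ge a1
    have e3 : next L y = x := lab_inj (L := L) (by omega)
    exact absurd (e3 ▸ inChain_next b1) a1
  · have := lab_le L x
    have := lab_notIn_ge a1
    omega
  · have e1 := lab_notIn_ge b1
    have e2 := lab_notIn_ge a1
    exact lab_inj (L := L) (by omega)

/-- extended promotion `∂ : Λ(P) → Λ(P)`; its defining property is `lab_promotion` -/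
noncomputable def promotion (L : Labeling P) : Labeling P :=
  Equiv.ofBijective
    (fun x => (⟨promLab L x - 1, by have := promLab_bounds L x; omega⟩ : Fin (Fintype.card P)))
    (by
      rw [Fintype.bijective_iff_injective_and_card]
      refine ⟨?_, by simp⟩
      intro x y hxy
      apply promLab_inj L
      have h := congrArg Fin.val hxy
      simp only at h
      have := promLab_bounds L x
      have := promLab_bounds L y
      omega)

theorem lab_promotion (L : Labeling P) (x : P) : lab (promotion L) x = promLab L x := by
  have := promLab_bounds L x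
  unfold lab promotion
  rw [Equiv.ofBijective_apply]
  simp only
  omega

end
end Pool.Agent.R543.Promo
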