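import Mathlib

/-!
Combinatorial inequality used for the degree of noninvertibility of extended promotion.
-/

open Finset

namespace Pool.Agent.R543.Promo

open Classical

variable {P : Type*} [PartialOrder P]

/-- number of elements of `C` strictly below `u` -/
noncomputable def dn (C : Finset P) (u : P) : ℤ := ((C.filter (fun w => w < u)).card : ℤ)
/-- number of elements of `C` strictly above `u` -/
noncomputable def uf (C : Finset P) (u : P) : ℤ := ((C.filter (fun w => u < w)).card : ℤ)

lemma dn_nonneg (C : Finset P) (u : P) : 0 ≤ dn C u := by unfold dn; positivity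
lemma uf_nonneg (C : Finset P) (u : P) : 0 ≤ uf C u := by unfold uf; positivity

lemma sum_dn_eq (C D : Finset P) : ∑ u ∈ C, dn D u = ∑ w ∈ D, uf C w := by
  unfold dn uf
  simp only [card_filter]
  push_cast
  rw [sum_comm]

lemma dn_le {C : Finset P} {u : P} (hu : u ∈ C) : dn C u ≤ C.card - 1 := by
  have h : (C.filter (fun w => w < u)).card ≤ (C.erase u).card := by
    apply card_le_card
    intro w hw
    rw [mem_filter] at hw
    exact mem_erase.2 ⟨ne_of_lt hw.2, hw.1⟩
  rw [card_erase_of_mem hu] at h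
  have h1 : 0 < C.card := card_pos.2 ⟨u, hu⟩
  unfold dn
  omega

lemma uf_le {C : Finset P} {u : P} (hu : u ∈ C) : uf C u ≤ C.card - 1 := by
  have h : (C.filter (fun w => u < w)).card ≤ (C.erase u).card := by
    apply card_le_card
    intro w hw
    rw [mem_filter] at hw
    exact mem_erase.2 ⟨ne_of_gt hw.2, hw.1⟩
  rw [card_erase_of_mem hu] at h
  have h1 : 0 < C.card := card_pos.2 ⟨u, hu⟩
  unfold uf
  omega

lemma dn_down {C K : Finset P} (hKC : K ⊆ C) (hK : ∀ u ∈ K, ∀ w ∈ C, w < u → w ∈ K)
    {u : P} (hu : u ∈ K) : dn C u = dn K u := by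
  unfold dn
  congr 2
  ext w
  simp only [mem_filter]
  constructor
  · rintro ⟨h1, h2⟩; exact ⟨hK u hu w h1 h2, h2⟩
  · rintro ⟨h1, h2⟩; exact ⟨hKC h1, h2⟩

lemma uf_split {C K : Finset P} (hKC : K ⊆ C) (u : P) :
    uf C u = uf (C \ K) u + uf K u := by
  unfold uf
  rw [← Nat.cast_add, ← card_union_of_disjoint, ← filter_union, sdiff_union_of_subset hKC]
  exact disjoint_filter_filter sdiff_disjoint

lemma uf_le_card (C : Finset P) (u : P) : uf C u ≤ C.card := by
  unfold uf; exact_mod_cast card_filter_le _ _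

lemma card_sdiff' {C K : Finset P} (hKC : K ⊆ C) : ((C \ K).card : ℤ) = C.card - K.card := by
  rw [card_sdiff_of_subset hKC]
  have := card_le_card hKC
  omega

/-- chord bound (II) -/
lemma chordII {C K : Finset P} (hKC : K ⊆ C) (hK : ∀ u ∈ K, ∀ w ∈ C, w < u → w ∈ K) :
    ∑ u ∈ K, (((C.card : ℤ) - dn C u) * (C.card - dn C u + 1) + (uf C u + 1) * (uf C u + 2))
      ≤ K.card * (C.card + 1) * (2 * C.card - K.card + 1) := by
  have h1 : ∀ u ∈ K, (((C.card : ℤ) - dn C u) * (C.card - dn C u + 1)
      + (uf C u + 1) * (uf C u + 2)) ≤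
      ((C.card : ℤ) + 1) * ((2 * C.card - K.card + 1) - dn K u + uf K u) := by
    intro u hu
    have e1 := dn_down hKC hK hu
    have e2 := uf_split hKC u
    have e3 := uf_le_card (C \ K) u
    rw [card_sdiff' hKC] at e3
    have e4 := uf_le (hKC hu)
    have e5 := dn_le (hKC hu)
    have e6 := dn_nonneg C u
    have e7 := uf_nonneg C u
    rw [← e1]
    set c : ℤ := (C.card : ℤ)
    set k : ℤ := (K.card : ℤ)
    set d := dn C u
    set e := uf C u
    set f := uf K u
    have a1 : (c - d) * (c - d + 1) ≤ (c - d) * (c + 1) := by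
      apply mul_le_mul_of_nonneg_left <;> linarith
    have a2 : (e + 1) * (e + 2) ≤ (e + 1) * (c + 1) := by
      apply mul_le_mul_of_nonneg_left <;> linarith
    have a3 : (e + 1) * (c + 1) ≤ (c - k + f + 1) * (c + 1) := by
      apply mul_le_mul_of_nonneg_right <;> linarith
    nlinarith
  refine (sum_le_sum h1).trans ?_
  rw [← mul_sum, sum_add_distrib, sum_sub_distrib, sum_dn_eq, sum_const]
  simp only [nsmul_eq_mul]
  linarith

/-- the poset inequality (I) -/
lemma ineqI (C : Finset P) :
    ∑ u ∈ C, (((C.card : ℤ) - 1 - dn C u) * (C.card - dn C u) * (C.card - dn C u + 1)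
      + 2 * (uf C u + 1) * (uf C u + 2) * (C.card - 1 - dn C u)
      + uf C u * (uf C u + 1) * (uf C u + 2))
      ≤ (C.card : ℤ) * (C.card - 1) * (C.card + 1) * (C.card + 2) := by
  induction' hn : C.card with n ih generalizing C
  · have : C = ∅ := card_eq_zero.1 hn
    subst this
    simp
  · have hne : C.Nonempty := card_pos.1 (by omega)
    obtain ⟨z, hz⟩ := C.exists_minimal hne
    have hzC : z ∈ C := hz.1
    have hzmin : ∀ w ∈ C, ¬ w < z := fun w hw h => by
      have := hz.2 hw (le_of_lt h)
      exact absurd (lt_of_lt_of_le h this) (lt_irrefl _)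
    have hC' : (C.erase z).card = n := by rw [card_erase_of_mem hzC]; omega
    have IH := ih (C.erase z) hC'
    set C' := C.erase z with hC'def
    -- the incomparable elements
    set K := C'.filter (fun w => ¬ z < w) with hKdef
    have hKC : K ⊆ C := (filter_subset _ _).trans (erase_subset _ _)
    have hKC' : K ⊆ C' := filter_subset _ _
    have hKdown : ∀ u ∈ K, ∀ w ∈ C, w < u → w ∈ K := by
      intro u hu w hw hwu
      rw [hKdef, mem_filter, hC'def, mem_erase] at hu ⊢
      refine ⟨⟨?_, hw⟩, ?_⟩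
      · rintro rfl; exact hu.2 hwu
      · intro h; exact hu.2 (h.trans hwu)
    -- relations between C and C'
    have huf : ∀ u ∈ C', uf C u = uf C' u := by
      intro u hu
      unfold uf
      congr 2
      ext w
      simp only [mem_filter, hC'def, mem_erase]
      constructor
      · rintro ⟨h1, h2⟩
        refine ⟨⟨?_, h1⟩, h2⟩
        rintro rfl
        exact hzmin u (mem_of_mem_erase hu) h2
      · rintro ⟨⟨_, h1⟩, h2⟩; exact ⟨h1, h2⟩
    have hdnK : ∀ u ∈ K, dn C u = dn C' u := by
      intro u hu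
      unfold dn
      congr 2
      ext w
      simp only [mem_filter, hC'def, mem_erase]
      constructor
      · rintro ⟨h1, h2⟩
        refine ⟨⟨?_, h1⟩, h2⟩
        rintro rfl
        exact (mem_filter.1 hu).2 h2
      · rintro ⟨⟨_, h1⟩, h2⟩; exact ⟨h1, h2⟩
    have hdnN : ∀ u ∈ C', u ∉ K → dn C u = dn C' u + 1 := by
      intro u hu huK
      have hzu : z < u := by
        by_contra h
        exact huK (mem_filter.2 ⟨hu, h⟩)
      unfold dn
      have : C.filter (fun w => w < u) = insert z (C'.filter (fun w => w < u)) := by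
        ext w
        simp only [mem_filter, hC'def, mem_erase, mem_insert]
        constructor
        · rintro ⟨h1, h2⟩
          by_cases h : w = z
          · exact Or.inl h
          · exact Or.inr ⟨⟨h, h1⟩, h2⟩
        · rintro (rfl | ⟨⟨_, h1⟩, h2⟩)
          · exact ⟨hzC, hzu⟩
          · exact ⟨h1, h2⟩
      rw [this, card_insert_of_notMem]
      · push_cast; ring
      · simp [hC'def]
    have hdnz : dn C z = 0 := by
      unfold dn
      rw [Nat.cast_eq_zero, card_eq_zero, filter_eq_empty_iff]
      intro w hw; exact hzmin w hw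
    have hufz : uf C z = n - K.card := by
      have h1 : C.filter (fun w => z < w) = C' \ K := by
        ext w
        simp only [mem_filter, mem_sdiff, hKdef, hC'def, mem_erase]
        constructor
        · rintro ⟨h1, h2⟩
          exact ⟨⟨ne_of_gt h2, h1⟩, fun h => h.2 h2⟩
        · rintro ⟨⟨h0, h1⟩, h2⟩
          refine ⟨h1, ?_⟩
          by_contra h
          exact h2 ⟨⟨h0, h1⟩, h⟩
      unfold uf
      rw [h1, card_sdiff' hKC', hC']
    have hKcard : (K.card : ℤ) ≤ n := by
      rw [← hC']; exact_mod_cast card_le_card hKC'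
    -- the sum
    rw [← add_sum_erase C _ hzC, ← hC'def]
    have key : ∀ u ∈ C', ((((n + 1 : ℕ) : ℤ) - 1 - dn C u) * ((n + 1 : ℕ) - dn C u)
          * ((n + 1 : ℕ) - dn C u + 1)
        + 2 * (uf C u + 1) * (uf C u + 2) * ((n + 1 : ℕ) - 1 - dn C u)
        + uf C u * (uf C u + 1) * (uf C u + 2)) =
        (((n : ℤ) - 1 - dn C' u) * (n - dn C' u) * (n - dn C' u + 1)
        + 2 * (uf C' u + 1) * (uf C' u + 2) * (n - 1 - dn C' u)
        + uf C' u * (uf C' u + 1) * (uf C' u + 2)) +
        (if u ∈ K then 3 * ((n : ℤ) - dn C u) * (n + 1 - dn C u)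
          + 2 * (uf C u + 1) * (uf C u + 2) else 0) := by
      intro u hu
      rw [huf u hu]
      by_cases huK : u ∈ K
      · rw [if_pos huK, hdnK u huK]; push_cast; ring
      · rw [if_neg huK, hdnN u hu huK]; push_cast; ring
    rw [sum_congr rfl key, sum_add_distrib]
    have hfil : ∑ u ∈ C', (if u ∈ K then 3 * ((n : ℤ) - dn C u) * (n + 1 - dn C u)
          + 2 * (uf C u + 1) * (uf C u + 2) else 0)
        = ∑ u ∈ K, (3 * ((n : ℤ) - dn C u) * (n + 1 - dn C u)
          + 2 * (uf C u + 1) * (uf C u + 2)) := by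
      rw [← sum_filter]
      congr 1
      ext w
      simp only [mem_filter]
      exact ⟨fun h => h.2, fun h => ⟨hKC' h, h⟩⟩
    rw [hfil]
    have hbound : ∑ u ∈ K, (3 * ((n : ℤ) - dn C u) * (n + 1 - dn C u)
          + 2 * (uf C u + 1) * (uf C u + 2)) ≤
          (n + 1) * K.card * (5 * (n + 1) - 3 - 2 * K.card) := by
      have h1 : ∀ u ∈ K, (3 * ((n : ℤ) - dn C u) * (n + 1 - dn C u)
          + 2 * (uf C u + 1) * (uf C u + 2)) ≤
          ((n : ℤ) + 1) * ((5 * (n + 1) - 3 - 2 * K.card) - 3 * dn K u + 2 * uf K u) := by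
        intro u hu
        have e1 := dn_down hKC hKdown hu
        have e0 := huf u (hKC' hu)
        have e2 := uf_split hKC' u
        have e3 := uf_le_card (C' \ K) u
        rw [card_sdiff' hKC', hC'] at e3
        have e4 := uf_le (hKC' hu)
        rw [hC'] at e4
        have e5 := dn_le (hKC' hu)
        rw [hC', ← hdnK u hu] at e5
        have e6 := dn_nonneg C u
        have e7 := uf_nonneg C u
        have e8 := dn_nonneg K u
        rw [← e1]
        rw [← e0] at e2 e4
        set k : ℤ := (K.card : ℤ)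
        set d := dn C u
        set e := uf C u
        set f := uf K u
        have a1 : ((n : ℤ) - d) * (n + 1 - d) ≤ ((n : ℤ) - d) * (n + 1) := by
          apply mul_le_mul_of_nonneg_left <;> linarith
        have a2 : (e + 1) * (e + 2) ≤ (e + 1) * ((n : ℤ) + 1) := by
          apply mul_le_mul_of_nonneg_left <;> linarith
        have a3 : (e + 1) * ((n : ℤ) + 1) ≤ (n - k + f + 1) * (n + 1) := by
          apply mul_le_mul_of_nonneg_right <;> linarith
        nlinarith
      refine (sum_le_sum h1).trans ?_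
      rw [← mul_sum, sum_add_distrib, sum_sub_distrib, ← mul_sum, ← mul_sum, sum_dn_eq, sum_const]
      simp only [nsmul_eq_mul]
      have h0 : 0 ≤ ∑ w ∈ K, uf K w := sum_nonneg (fun w _ => uf_nonneg K w)
      nlinarith
    rw [hdnz, hufz]
    have hk0 : (0 : ℤ) ≤ K.card := by positivity
    have hn0 : (0 : ℤ) ≤ n - K.card := by linarith
    push_cast
    set k : ℤ := (K.card : ℤ)
    obtain ⟨e, he⟩ : ∃ e : ℤ, e = n - k := ⟨_, rfl⟩
    have hfin : ((n : ℤ) + 1 - 1 - 0) * (n + 1 - 0) * (n + 1 - 0 + 1) +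
        2 * (n - k + 1) * (n - k + 2) * (n + 1 - 1 - 0) + (n - k) * (n - k + 1) * (n - k + 2)
        + (n + 1) * k * (5 * (n + 1) - 3 - 2 * k) +
        k * (2 * e * e + e * k + 5 * e + 4 * k) = 4 * n * (n + 1) * (n + 2) := by
      subst he; ring
    have hpos : 0 ≤ k * (2 * e * e + e * k + 5 * e + 4 * k) := by
      rw [← he] at hn0; positivity
    nlinarith
end Pool.Agent.R543.Promo
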