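import Pool.Agent.R543.Promo.Orders
import Pool.Agent.R543.Promo.Defs

open Finset

namespace Pool.Agent.R543.Promo

open Classical

section fam
variable {P : Type*} [PartialOrder P] [Fintype P]

lemma X_nonneg : ∀ (l : List P) (U : Finset P), 0 ≤ X l U
  | [], _ => by simp [X]
  | [v], U => by rw [X]; split_ifs <;> simp
  | (u :: w :: l), U => by
      rw [X]
      have := X_nonneg (w :: l) (Promo.rem U u)
      have := X_nonneg (w :: l) (abv u)
      split_ifs <;> linarith

/-- chains of good elements of `U` below `v` -/
noncomputable def fam (l : List P) (U : Finset P) (v : P) : Finset (Finset P) :=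
  univ.filter (fun C => C ⊆ U ∧ (∀ x ∈ C, ∀ y ∈ C, x ≤ y ∨ y ≤ x) ∧ (∀ x ∈ C, x < v) ∧
    ∀ x ∈ C, ∀ y ∈ U, x < y → l.idxOf x < l.idxOf y)

lemma mem_fam {l : List P} {U C : Finset P} {v : P} : C ∈ fam l U v ↔
    C ⊆ U ∧ (∀ x ∈ C, ∀ y ∈ C, x ≤ y ∨ y ≤ x) ∧ (∀ x ∈ C, x < v) ∧
    ∀ x ∈ C, ∀ y ∈ U, x < y → l.idxOf x < l.idxOf y := by
  unfold fam; simp

lemma card_fam_le : ∀ (l : List P) (U : Finset P) (v : P), l.getLast? = some v → l.Nodup →
    Up U → (∀ x ∈ U, x ∈ l) → v ∈ U → (¬ ∃ y, v < y) → ((fam l U v).card : ℤ) ≤ X l U
  | [], U, v, hl, _, _, _, _, _ => by simp at hl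
  | [v'], U, v, hl, _, _, hU, hv, _ => by
      have e : v' = v := by simpa using hl
      subst e
      rw [X, if_pos hv]
      have : fam [v'] U v' ⊆ {∅} := by
        intro C hC
        rw [mem_fam] at hC
        rw [mem_singleton, eq_empty_iff_forall_notMem]
        intro x hx
        have h1 := hU x (hC.1 hx)
        have h2 := hC.2.2.1 x hx
        rw [List.mem_singleton] at h1
        exact absurd h2 (by rw [h1]; exact lt_irrefl _)
      have := card_le_card this
      rw [card_singleton] at this
      exact_mod_cast this
  | (u :: w :: l), U, v, hl, hn, hup, hU, hv, hmax => by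
      have hl' : (w :: l).getLast? = some v := by simpa using hl
      have hn' := List.nodup_cons.1 hn
      have hvl : v ∈ w :: l := List.mem_of_getLast? hl'
      have hvu : v ≠ u := fun h => hn'.1 (h ▸ hvl)
      -- elements of the list other than u
      have hidx : ∀ x : P, x ≠ u → (u :: w :: l).idxOf x = (w :: l).idxOf x + 1 := by
        intro x hx
        exact List.idxOf_cons_ne _ (Ne.symm hx)
      have hu0 : (u :: w :: l).idxOf u = 0 := List.idxOf_cons_self
      -- no element of a member is below u
      have hnb : ∀ C ∈ fam (u :: w :: l) U v, ∀ x ∈ C, ¬ x < u := by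
        intro C hC x hx hxu
        rw [mem_fam] at hC
        have := hC.2.2.2 x hx u (hup x (hC.1 hx) u hxu.le) hxu
        rw [hu0] at this
        omega
      have hsplit := card_filter_add_card_filter_not (s := fam (u :: w :: l) U v)
        (fun C => u ∈ C)
      have hA : (((fam (u :: w :: l) U v).filter (fun C => ¬ u ∈ C)).card : ℤ) ≤
          X (w :: l) (Promo.rem U u) := by
        have hsub : (fam (u :: w :: l) U v).filter (fun C => ¬ u ∈ C) ⊆
            fam (w :: l) (Promo.rem U u) v := by
          intro C hC
          rw [mem_filter] at hC
          have hb := hnb C hC.1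
          have hC1 := mem_fam.1 hC.1
          rw [mem_fam]
          refine ⟨?_, hC1.2.1, hC1.2.2.1, ?_⟩
          · intro x hx
            simp only [Promo.rem, mem_filter]
            refine ⟨hC1.1 hx, fun h => ?_⟩
            rcases h.eq_or_lt with h | h
            · exact hC.2 (h ▸ hx)
            · exact hb x hx h
          · intro x hx y hy hxy
            simp only [Promo.rem, mem_filter] at hy
            have h1 := hC1.2.2.2 x hx y hy.1 hxy
            rw [hidx x (fun h => hC.2 (h ▸ hx)), hidx y (fun h => hy.2 h.le)] at h1
            omega
        have h2 := card_fam_le (w :: l) (Promo.rem U u) v hl' hn'.2 (hup.rem u) (by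
          intro x hx
          simp only [Promo.rem, mem_filter] at hx
          have := hU x hx.1
          rcases List.mem_cons.1 this with h | h
          · exact absurd h.le hx.2
          · exact h) (by
          simp only [Promo.rem, mem_filter]
          refine ⟨hv, fun h => ?_⟩
          rcases h.eq_or_lt with h | h
          · exact hvu h
          · exact hmax ⟨u, h⟩) hmax
        have h3 := card_le_card hsub
        have h4 : (((fam (u :: w :: l) U v).filter (fun C => ¬ u ∈ C)).card : ℤ) ≤
          ((fam (w :: l) (Promo.rem U u) v).card : ℤ) := by exact_mod_cast h3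
        exact h4.trans h2
      have hB : (((fam (u :: w :: l) U v).filter (fun C => u ∈ C)).card : ℤ) ≤
          if u ∈ U then X (w :: l) (abv u) else 0 := by
        by_cases huU : u ∈ U ∧ u < v
        · rw [if_pos huU.1]
          have hinj : ((fam (u :: w :: l) U v).filter (fun C => u ∈ C)).card ≤
              (fam (w :: l) (abv u) v).card := by
            apply card_le_card_of_injOn (fun C => C.erase u)
            · intro C hC
              simp only [coe_filter, Set.mem_ofPred_eq] at hC
              have hb := hnb C hC.1
              have hC1 := mem_fam.1 hC.1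
              simp only [mem_coe]
              rw [mem_fam]
              refine ⟨?_, ?_, ?_, ?_⟩
              · intro x hx
                rw [mem_erase] at hx
                simp only [abv, mem_filter, mem_univ, true_and]
                rcases hC1.2.1 x hx.2 u hC.2 with h | h
                · rcases h.eq_or_lt with h | h
                  · exact absurd h hx.1
                  · exact absurd h (hb x hx.2)
                · exact lt_of_le_of_ne h (Ne.symm hx.1)
              · intro x hx y hy
                exact hC1.2.1 x (mem_of_mem_erase hx) y (mem_of_mem_erase hy)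
              · intro x hx
                exact hC1.2.2.1 x (mem_of_mem_erase hx)
              · intro x hx y hy hxy
                rw [mem_erase] at hx
                simp only [abv, mem_filter, mem_univ, true_and] at hy
                have h1 := hC1.2.2.2 x hx.2 y (hup u huU.1 y hy.le) hxy
                rw [hidx x hx.1, hidx y (ne_of_gt hy)] at h1
                omega
            · intro C hC D hD h
              simp only [coe_filter, Set.mem_ofPred_eq] at hC hD
              simp only at h
              rw [← insert_erase hC.2, ← insert_erase hD.2, h]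
          have h2 := card_fam_le (w :: l) (abv u) v hl' hn'.2 (up_abv u) (by
            intro x hx
            simp only [abv, mem_filter, mem_univ, true_and] at hx
            have := hU x (hup u huU.1 x hx.le)
            rcases List.mem_cons.1 this with h | h
            · exact absurd h (ne_of_gt hx)
            · exact h) (by
            simp only [abv, mem_filter, mem_univ, true_and]
            exact huU.2) hmax
          have h4 : (((fam (u :: w :: l) U v).filter (fun C => u ∈ C)).card : ℤ) ≤
            ((fam (w :: l) (abv u) v).card : ℤ) := by exact_mod_cast hinj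
          exact h4.trans h2
        · have : (fam (u :: w :: l) U v).filter (fun C => u ∈ C) = ∅ := by
            rw [filter_eq_empty_iff]
            intro C hC huC
            rw [mem_fam] at hC
            exact huU ⟨hC.1 huC, hC.2.2.1 u huC⟩
          rw [this, card_empty]
          split_ifs
          · exact_mod_cast X_nonneg _ _
          · simp
      rw [X]
      have : ((fam (u :: w :: l) U v).card : ℤ) =
        (((fam (u :: w :: l) U v).filter (fun C => u ∈ C)).card : ℤ) +
        (((fam (u :: w :: l) U v).filter (fun C => ¬ u ∈ C)).card : ℤ) := by
        exact_mod_cast hsplit.symm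
      linarith

end fam

section main
variable {P : Type*} [Fintype P] [PartialOrder P] [Nonempty P]

/-- the list of elements of `P` in increasing order of label -/
def lst (M : Labeling P) : List P := List.ofFn M.symm

lemma lst_nodup (M : Labeling P) : (lst M).Nodup := List.nodup_ofFn.2 M.symm.injective
lemma mem_lst (M : Labeling P) (x : P) : x ∈ lst M := by
  unfold lst
  rw [List.mem_ofFn]
  exact ⟨M x, by simp⟩
lemma length_lst (M : Labeling P) : (lst M).length = Fintype.card P := List.length_ofFn
lemma idxOf_lst (M : Labeling P) (x : P) : (lst M).idxOf x = (M x : ℕ) := by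
  have h : (M x : ℕ) < (lst M).length := by rw [length_lst]; exact (M x).isLt
  have e : (lst M)[(M x : ℕ)]'h = x := by
    simp [lst]
  have := (lst_nodup M).idxOf_getElem (M x : ℕ) h
  rw [e] at this
  exact this

lemma lst_inj : Function.Injective (lst : Labeling P → List P) := by
  intro M N h
  ext x
  rw [← idxOf_lst, ← idxOf_lst, h]

/-- the nonmaximal part of the promotion chain -/
noncomputable def nmax (L : Labeling P) : Finset P :=
  univ.filter (fun x => InChain L x ∧ ∃ y, x < y)

lemma lab_prom_nmax {L : Labeling P} {x : P} (h1 : InChain L x) (h2 : ∃ y, x < y) :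
    lab (promotion L) x = lab L (next L x) - 1 := by
  rw [lab_promotion, promLab, if_pos h1, if_pos h2]

lemma lab_prom_max {L : Labeling P} {x : P} (h1 : InChain L x) (h2 : ¬ ∃ y, x < y) :
    lab (promotion L) x = Fintype.card P := by
  rw [lab_promotion, promLab, if_pos h1, if_neg h2]

lemma lab_prom_not {L : Labeling P} {x : P} (h1 : ¬ InChain L x) :
    lab (promotion L) x = lab L x - 1 := by
  rw [lab_promotion, promLab, if_neg h1]

/-- the members of the promotion chain are determined by the image and by `nmax` -/
lemma inChain_iff (L : Labeling P) (x : P) :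
    InChain L x ↔ x ∈ nmax L ∨ lab (promotion L) x = Fintype.card P := by
  unfold nmax
  rw [mem_filter]
  constructor
  · intro h
    by_cases h2 : ∃ y, x < y
    · exact Or.inl ⟨mem_univ _, h, h2⟩
    · exact Or.inr (lab_prom_max h h2)
  · rintro (h | h)
    · exact h.2.1
    · obtain ⟨v, hv, hv2⟩ := exists_max_inChain L
      have := lab_prom_max hv hv2
      have e : x = v := lab_inj (L := promotion L) (by rw [h, this])
      rw [e]; exact hv

lemma nmax_injOn {L L' : Labeling P} (hM : promotion L = promotion L') (hn : nmax L = nmax L') :
    L = L' := by
  have hin : ∀ x, InChain L x ↔ InChain L' x := by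
    intro x; rw [inChain_iff, inChain_iff, hM, hn]
  have hlab : ∀ x, lab L x = lab L' x := by
    intro x
    by_cases hx : InChain L x
    · -- chain element
      have hx' := (hin x).1 hx
      -- general comparison
      have aux : ∀ (L L' : Labeling P), promotion L = promotion L' →
          (∀ x, InChain L x ↔ InChain L' x) → ∀ x, InChain L x → lab L x ≠ 1 →
          lab L x = lab L' x := by
        intro L L' hM hin x hx h1
        obtain ⟨w, hw, hwx, hnext⟩ := inChain_pred hx h1
        have e1 := lab_prom_nmax hw ⟨x, hwx⟩
        have hw' := (hin w).1 hw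
        have e2 := lab_prom_nmax hw' ⟨x, hwx⟩
        have g1 := lab_next_ge hw ⟨x, hwx⟩
        have g2 := lab_next_ge hw' ⟨x, hwx⟩
        rw [← hM] at e2
        have e3 : lab L (next L w) = lab L' (next L' w) := by omega
        have e4 : next L w = next L' w := by
          apply le_antisymm
          · have s := (next_spec (L := L') (x := w) ⟨x, hwx⟩).1
            exact inChain_next_le hw ((hin _).2 (inChain_next hw')) s
          · have s := (next_spec (L := L) (x := w) ⟨x, hwx⟩).1
            exact inChain_next_le hw' ((hin _).1 (inChain_next hw)) s
        rw [hnext] at e3 e4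
        rw [e3, ← e4]
      by_cases h1 : lab L x = 1
      · by_cases h1' : lab L' x = 1
        · rw [h1, h1']
        · exact (aux L' L hM.symm (fun x => (hin x).symm) x hx' h1').symm
      · exact aux L L' hM hin x hx h1
    · have hx' : ¬ InChain L' x := fun h => hx ((hin x).2 h)
      have e1 := lab_prom_not hx
      have e2 := lab_prom_not hx'
      have g1 := lab_notIn_ge hx
      have g2 := lab_notIn_ge hx'
      rw [← hM] at e2
      omega
  ext x
  have := hlab x
  unfold lab at this
  omega

lemma nmax_mem_fam {L : Labeling P} {v : P} (hv : lab (promotion L) v = Fintype.card P) :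
    nmax L ∈ fam (lst (promotion L)) univ v := by
  have hvc : InChain L v := (inChain_iff L v).2 (Or.inr hv)
  have hvm : ¬ ∃ y, v < y := by
    intro h
    have := lab_prom_nmax hvc h
    have h2 := lab_le L (next L v)
    have h3 := lab_next_ge hvc h
    omega
  rw [mem_fam]
  refine ⟨subset_univ _, ?_, ?_, ?_⟩
  · intro x hx y hy
    rw [nmax, mem_filter] at hx hy
    exact inChain_total hx.2.1 hy.2.1
  · intro x hx
    rw [nmax, mem_filter] at hx
    rcases inChain_total hx.2.1 hvc with h | h
    · refine lt_of_le_of_ne h ?_
      rintro rfl
      exact hvm hx.2.2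
    · rcases h.eq_or_lt with h | h
      · exact absurd (h ▸ hx.2.2) hvm
      · exact absurd ⟨x, h⟩ hvm
  · intro x hx y _ hxy
    rw [nmax, mem_filter] at hx
    rw [idxOf_lst, idxOf_lst]
    suffices lab (promotion L) x < lab (promotion L) y by unfold lab at this; omega
    have e1 := lab_prom_nmax hx.2.1 hx.2.2
    have g1 := lab_next_ge hx.2.1 hx.2.2
    have sp := next_spec (L := L) hx.2.2
    by_cases hy : InChain L y
    · by_cases hym : ∃ z, y < z
      · have e2 := lab_prom_nmax hy hym
        have g2 := lab_next_ge hy hym
        have sp2 := next_spec (L := L) hym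
        have h1 := sp.2 (next L y) (hxy.trans sp2.1)
        have h2 : lab L (next L x) ≠ lab L (next L y) := by
          intro h
          have h3 := lab_inj h
          have h4 := inChain_next_le hx.2.1 hy hxy
          rw [h3] at h4
          exact absurd (lt_of_lt_of_le sp2.1 h4) (lt_irrefl _)
        omega
      · have e2 := lab_prom_max hy hym
        have := lab_le L (next L x)
        omega
    · have e2 := lab_prom_not hy
      have g2 := lab_notIn_ge hy
      have h1 := sp.2 y hxy
      have h2 : lab L (next L x) ≠ lab L y := by
        intro h
        exact hy ((lab_inj h) ▸ inChain_next hx.2.1)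
      omega

lemma card_preimage_le (M : Labeling P) :
    ((univ.filter (fun L : Labeling P => promotion L = M)).card : ℤ) ≤ X (lst M) univ := by
  by_cases hne : (univ.filter (fun L : Labeling P => promotion L = M)).Nonempty
  · obtain ⟨L0, hL0⟩ := hne
    have hL0' : promotion L0 = M := by simpa using hL0
    obtain ⟨v, hvc, hvm⟩ := exists_max_inChain L0
    have hv : lab M v = Fintype.card P := by rw [← hL0']; exact lab_prom_max hvc hvm
    have hpos := Fintype.card_pos (α := P)
    have hlast : (lst M).getLast? = some v := by
      have hne : lst M ≠ [] := by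
        intro h
        have := length_lst M
        rw [h] at this
        simp at this
        omega
      rw [List.getLast?_eq_getElem?, length_lst]
      have hMv : (M v : ℕ) = Fintype.card P - 1 := by unfold lab at hv; omega
      rw [← hMv]
      have h : (M v : ℕ) < (lst M).length := by rw [length_lst]; exact (M v).isLt
      rw [List.getElem?_eq_getElem h]
      congr 1
      simp [lst]
    have h1 := card_fam_le (lst M) univ v hlast (lst_nodup M) (fun _ _ _ _ => mem_univ _)
      (fun x _ => mem_lst M x) (mem_univ _) hvm
    refine le_trans ?_ h1
    have h2 : (univ.filter (fun L : Labeling P => promotion L = M)).card ≤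
        (fam (lst M) univ v).card := by
      apply card_le_card_of_injOn nmax
      · intro L hL
        simp only [coe_filter, mem_univ, true_and, Set.mem_ofPred_eq] at hL
        have := nmax_mem_fam (L := L) (v := v) (by rw [hL]; exact hv)
        rw [hL] at this
        exact this
      · intro L hL L' hL' h
        simp only [coe_filter, mem_univ, true_and, Set.mem_ofPred_eq] at hL hL'
        exact nmax_injOn (by rw [hL, hL']) h
    exact_mod_cast h2
  · rw [not_nonempty_iff_eq_empty] at hne
    rw [hne, card_empty]
    exact_mod_cast X_nonneg _ _

theorem deg_promotion_le :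
    deg (promotion : Labeling P → Labeling P) ≤
      ((Fintype.card P : ℚ) + 2) * (Fintype.card P + 1) / 6 := by
  have htot := total_bound (P := P)
  have hsum : ∑ M : Labeling P, X (lst M) univ * X (lst M) univ ≤
      ∑ l ∈ ords (Fintype.card P) (univ : Finset P), X l univ * X l univ := by
    have e : ∑ M : Labeling P, X (lst M) univ * X (lst M) univ =
        ∑ l ∈ (univ : Finset (Labeling P)).image lst, X l univ * X l univ := by
      rw [sum_image (fun a _ b _ h => lst_inj h)]
    rw [e]
    apply sum_le_sum_of_subset_of_nonneg
    · intro l hl
      rw [mem_image] at hl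
      obtain ⟨M, _, rfl⟩ := hl
      exact mem_ords _ _ _ (lst_nodup M) (fun x => by simp [mem_lst]) (length_lst M)
    · intro l _ _
      exact mul_nonneg (X_nonneg _ _) (X_nonneg _ _)
  have hsq : ∑ M : Labeling P, ((univ.filter (fun L : Labeling P => promotion L = M)).card : ℤ) ^ 2
      ≤ ∑ M : Labeling P, X (lst M) univ * X (lst M) univ := by
    apply sum_le_sum
    intro M _
    have h := card_preimage_le M
    rw [sq]
    exact mul_le_mul h h (by positivity) (X_nonneg _ _)
  have hcard : Fintype.card (Labeling P) = Nat.factorial (Fintype.card P) := by
    rw [Fintype.card_equiv (Fintype.equivFin P)]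
  unfold deg
  rw [hcard]
  have hf : (0 : ℚ) < (Nat.factorial (Fintype.card P) : ℚ) := by positivity
  rw [div_le_iff₀ hf]
  have hZ : 6 * ∑ M : Labeling P,
      ((univ.filter (fun L : Labeling P => promotion L = M)).card : ℤ) ^ 2 ≤
      (Nat.factorial (Fintype.card P) : ℤ) * (Fintype.card P + 1) * (Fintype.card P + 2) := by
    linarith
  have hQ : (6 : ℚ) * ∑ M : Labeling P,
      ((univ.filter (fun L : Labeling P => promotion L = M)).card : ℚ) ^ 2 ≤
      (Nat.factorial (Fintype.card P) : ℚ) * (Fintype.card P + 1) * (Fintype.card P + 2) := by
    exact_mod_cast hZ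
  have hfin : (∑ M : Labeling P,
      ((univ.filter (fun L : Labeling P => promotion L = M)).card : ℚ) ^ 2) ≤
      ((Fintype.card P : ℚ) + 2) * (Fintype.card P + 1) / 6 * (Nat.factorial (Fintype.card P)) := by
    linarith
  refine le_trans (le_of_eq ?_) hfin
  apply sum_congr rfl
  intro M _
  congr!

end main
end Pool.Agent.R543.Promo
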