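import Pool.Agent.R543.Promo.Step

open Finset

namespace Pool.Agent.R543.Promo

open Classical

variable {P : Type*}

/-- lists enumerating `W` (of cardinality `k`) without repetition -/
noncomputable def ords : ℕ → Finset P → Finset (List P)
  | 0, _ => {[]}
  | k + 1, W => W.biUnion (fun u => (ords k (W.erase u)).image (fun l => u :: l))

lemma sum_ords_succ (k : ℕ) (W : Finset P) (f : List P → ℤ) :
    ∑ l ∈ ords (k + 1) W, f l = ∑ u ∈ W, ∑ l ∈ ords k (W.erase u), f (u :: l) := by
  rw [ords, sum_biUnion]
  · apply sum_congr rfl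
    intro u _
    rw [sum_image]
    intro a _ b _ h
    exact (List.cons.inj h).2
  · intro u _ v _ huv
    rw [Function.onFun, disjoint_left]
    intro l hl hl'
    rw [mem_image] at hl hl'
    obtain ⟨a, _, rfl⟩ := hl
    obtain ⟨b, _, h⟩ := hl'
    exact huv (List.cons.inj h).1.symm

lemma length_of_mem_ords : ∀ (k : ℕ) (W : Finset P) (l : List P), l ∈ ords k W → l.length = k
  | 0, W, l, h => by
      rw [ords, mem_singleton] at h
      subst h; rfl
  | k + 1, W, l, h => by
      rw [ords, mem_biUnion] at h
      obtain ⟨u, _, h⟩ := h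
      rw [mem_image] at h
      obtain ⟨a, ha, rfl⟩ := h
      rw [List.length_cons, length_of_mem_ords k _ a ha]

lemma mem_ords : ∀ (k : ℕ) (W : Finset P) (l : List P), l.Nodup → (∀ x, x ∈ l ↔ x ∈ W) →
    l.length = k → l ∈ ords k W
  | 0, W, l, _, _, hl => by
      rw [ords, mem_singleton]
      exact List.length_eq_zero_iff.1 hl
  | k + 1, W, [], _, _, hl => by simp at hl
  | k + 1, W, u :: l, hn, hm, hl => by
      rw [ords, mem_biUnion]
      refine ⟨u, (hm u).1 (by simp), ?_⟩
      rw [mem_image]
      refine ⟨l, mem_ords k _ l (List.nodup_cons.1 hn).2 ?_ (by simpa using hl), rfl⟩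
      intro x
      rw [mem_erase, ← hm x, List.mem_cons]
      constructor
      · intro h
        refine ⟨?_, Or.inr h⟩
        rintro rfl
        exact (List.nodup_cons.1 hn).1 h
      · rintro ⟨h1, h2 | h2⟩
        · exact absurd h2 h1
        · exact h2

variable [PartialOrder P] [Fintype P]

/-- recursive count of the chains of good elements below the last element of the list -/
noncomputable def X : List P → Finset P → ℤ
  | [], _ => 0
  | [v], U => if v ∈ U then 1 else 0
  | (u :: w :: l), U => X (w :: l) (Promo.rem U u) + if u ∈ U then X (w :: l) (abv u) else 0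

lemma rem_notMem {U : Finset P} (h : Up U) {u : P} (hu : u ∉ U) : Promo.rem U u = U := by
  unfold Promo.rem
  rw [filter_eq_self]
  intro x hx hxu
  exact hu (h x hx u hxu)

theorem bound : ∀ (j : ℕ) (W U1 U2 : Finset P), W.card = j + 1 → Up U1 → Up U2 →
    U1 ⊆ W → U2 ⊆ W →
    6 * ∑ l ∈ ords (j + 1) W, X l U1 * X l U2 ≤ (Nat.factorial j : ℤ) * psi U1 U2
  | 0, W, U1, U2, hW, h1, h2, hs1, hs2 => by
      obtain ⟨v, rfl⟩ := card_eq_one.1 hW
      rw [sum_ords_succ, sum_singleton, ords, sum_singleton]
      rcases subset_singleton_iff.1 hs1 with rfl | rfl <;>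
      rcases subset_singleton_iff.1 hs2 with rfl | rfl <;>
      simp [X, psi, Pf]
  | j + 1, W, U1, U2, hW, h1, h2, hs1, hs2 => by
      rw [sum_ords_succ, mul_sum]
      have hstep := step h1 h2
      set t : P → ℤ := fun u => (psi (Promo.rem U1 u) (Promo.rem U2 u)
        + (if u ∈ U1 then psi (abv u) (Promo.rem U2 u) else 0)
        + (if u ∈ U2 then psi (Promo.rem U1 u) (abv u) else 0)
        + (if u ∈ U1 ∧ u ∈ U2 then psi (abv u) (abv u) else 0)) with ht
      have key : ∀ u ∈ W, 6 * ∑ l ∈ ords (j + 1) (W.erase u), X (u :: l) U1 * X (u :: l) U2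
          ≤ (Nat.factorial j : ℤ) * t u := by
        intro u hu
        have hWu : (W.erase u).card = j + 1 := by rw [card_erase_of_mem hu]; omega
        have r1 : Promo.rem U1 u ⊆ W.erase u := by
          intro w hw
          simp only [Promo.rem, mem_filter] at hw
          exact mem_erase.2 ⟨fun h => hw.2 h.le, hs1 hw.1⟩
        have r2 : Promo.rem U2 u ⊆ W.erase u := by
          intro w hw
          simp only [Promo.rem, mem_filter] at hw
          exact mem_erase.2 ⟨fun h => hw.2 h.le, hs2 hw.1⟩
        have ra1 : u ∈ U1 → abv u ⊆ W.erase u := by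
          intro hu1 w hw
          simp only [abv, mem_filter, mem_univ, true_and] at hw
          exact mem_erase.2 ⟨ne_of_gt hw, hs1 (h1 u hu1 w hw.le)⟩
        have ra2 : u ∈ U2 → abv u ⊆ W.erase u := by
          intro hu1 w hw
          simp only [abv, mem_filter, mem_univ, true_and] at hw
          exact mem_erase.2 ⟨ne_of_gt hw, hs2 (h2 u hu1 w hw.le)⟩
        have e : ∑ l ∈ ords (j + 1) (W.erase u), X (u :: l) U1 * X (u :: l) U2 =
            ∑ l ∈ ords (j + 1) (W.erase u), (X l (Promo.rem U1 u) * X l (Promo.rem U2 u)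
              + (if u ∈ U1 then X l (abv u) * X l (Promo.rem U2 u) else 0)
              + (if u ∈ U2 then X l (Promo.rem U1 u) * X l (abv u) else 0)
              + (if u ∈ U1 ∧ u ∈ U2 then X l (abv u) * X l (abv u) else 0)) := by
          apply sum_congr rfl
          intro l hl
          have hlen := length_of_mem_ords _ _ _ hl
          match l, hlen with
          | w :: l', _ =>
            rw [X, X]
            by_cases a : u ∈ U1 <;> by_cases b : u ∈ U2 <;> simp [a, b] <;> ring
        rw [e]
        simp only [sum_add_distrib, mul_add, ht]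
        have i1 := bound j (W.erase u) _ _ hWu (h1.rem u) (h2.rem u) r1 r2
        have i2 : 6 * ∑ l ∈ ords (j + 1) (W.erase u),
            (if u ∈ U1 then X l (abv u) * X l (Promo.rem U2 u) else 0) ≤
            (Nat.factorial j : ℤ) * (if u ∈ U1 then psi (abv u) (Promo.rem U2 u) else 0) := by
          split_ifs with h
          · exact bound j (W.erase u) _ _ hWu (up_abv u) (h2.rem u) (ra1 h) r2
          · simp
        have i3 : 6 * ∑ l ∈ ords (j + 1) (W.erase u),
            (if u ∈ U2 then X l (Promo.rem U1 u) * X l (abv u) else 0) ≤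
            (Nat.factorial j : ℤ) * (if u ∈ U2 then psi (Promo.rem U1 u) (abv u) else 0) := by
          split_ifs with h
          · exact bound j (W.erase u) _ _ hWu (h1.rem u) (up_abv u) r1 (ra2 h)
          · simp
        have i4 : 6 * ∑ l ∈ ords (j + 1) (W.erase u),
            (if u ∈ U1 ∧ u ∈ U2 then X l (abv u) * X l (abv u) else 0) ≤
            (Nat.factorial j : ℤ) * (if u ∈ U1 ∧ u ∈ U2 then psi (abv u) (abv u) else 0) := by
          split_ifs with h
          · exact bound j (W.erase u) _ _ hWu (up_abv u) (up_abv u) (ra1 h.1) (ra1 h.1)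
          · simp
        linarith
      refine (sum_le_sum key).trans ?_
      rw [← mul_sum]
      have hsub : U1 ∪ U2 ⊆ W := union_subset hs1 hs2
      have hsum : ∑ u ∈ W, t u = ∑ u ∈ W \ (U1 ∪ U2), t u + ∑ u ∈ U1 ∪ U2, t u :=
        (sum_sdiff hsub).symm
      have hout : ∑ u ∈ W \ (U1 ∪ U2), t u = ((W.card : ℤ) - (U1 ∪ U2).card) * psi U1 U2 := by
        have : ∀ u ∈ W \ (U1 ∪ U2), t u = psi U1 U2 := by
          intro u hu
          rw [mem_sdiff, mem_union, not_or] at hu
          simp only [ht, hu.2.1, hu.2.2, if_false, false_and, add_zero]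
          rw [rem_notMem h1 hu.2.1, rem_notMem h2 hu.2.2]
        rw [sum_congr rfl this, sum_const, nsmul_eq_mul, card_sdiff' hsub]
      have htot : ∑ u ∈ W, t u ≤ ((j : ℤ) + 1) * psi U1 U2 := by
        rw [hsum, hout, hW]
        push_cast
        linarith
      have hf : (0 : ℤ) ≤ Nat.factorial j := by positivity
      calc (Nat.factorial j : ℤ) * ∑ u ∈ W, t u
          ≤ (Nat.factorial j : ℤ) * (((j : ℤ) + 1) * psi U1 U2) :=
            mul_le_mul_of_nonneg_left htot hf
        _ = (Nat.factorial (j + 1) : ℤ) * psi U1 U2 := by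
            rw [Nat.factorial_succ]; push_cast; ring

/-- the total second moment -/
theorem total_bound [Nonempty P] :
    6 * ∑ l ∈ ords (Fintype.card P) (univ : Finset P), X l univ * X l univ ≤
      (Nat.factorial (Fintype.card P) : ℤ) * (Fintype.card P + 1) * (Fintype.card P + 2) := by
  obtain ⟨j, hj⟩ : ∃ j, Fintype.card P = j + 1 :=
    ⟨Fintype.card P - 1, by have := Fintype.card_pos (α := P); omega⟩
  have := bound j (univ : Finset P) univ univ (by rw [card_univ, hj]) (fun _ _ _ _ => mem_univ _)
    (fun _ _ _ _ => mem_univ _) (subset_refl _) (subset_refl _)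
  rw [hj]
  refine this.trans ?_
  unfold psi Pf
  rw [inter_self, card_univ, hj, Nat.factorial_succ]
  push_cast
  apply le_of_eq
  ring
end Pool.Agent.R543.Promo
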