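import Pool.Agent.R543.Promo.Ineq

open Finset

namespace Pool.Agent.R543.Promo

open Classical

/-- the polynomial of the inductive bound; arguments are `|V|`, `|W|`, `|V ∩ W|` -/
def Pf (p q c : ℤ) : ℤ := (c + 2) * ((c - 1) * (c - p - q) + 2 * p * q)

variable {P : Type*} [PartialOrder P]

noncomputable def psi (V W : Finset P) : ℤ := Pf V.card W.card (V ∩ W).card

lemma psi_comm (V W : Finset P) : psi V W = psi W V := by
  unfold psi Pf
  rw [inter_comm]; ring

/-- remove from `U` everything below or equal to `u` -/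
noncomputable def rem (U : Finset P) (u : P) : Finset P := U.filter (fun w => ¬ w ≤ u)

variable [Fintype P]
/-- elements strictly above `u` -/
noncomputable def abv (u : P) : Finset P := univ.filter (fun w => u < w)

/-- upward closed -/
def Up (U : Finset P) : Prop := ∀ x ∈ U, ∀ y, x ≤ y → y ∈ U

omit [Fintype P] in
lemma Up.rem {U : Finset P} (h : Up U) (u : P) : Up (rem U u) := by
  intro x hx y hxy
  simp only [Promo.rem, mem_filter] at hx ⊢
  exact ⟨h x hx.1 y hxy, fun hy => hx.2 (hxy.trans hy)⟩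

lemma up_abv (u : P) : Up (abv u) := by
  intro x hx y hxy
  simp only [abv, mem_filter, mem_univ, true_and] at hx ⊢
  exact lt_of_lt_of_le hx hxy

section groups
variable {U1 U2 : Finset P} (h1 : Up U1) (h2 : Up U2)
include h1 h2

omit [Fintype P] in
lemma card_split : (U1.card : ℤ) = (U1 \ U2).card + (U1 ∩ U2).card := by
  exact_mod_cast (card_sdiff_add_card_inter U1 U2).symm

omit [Fintype P] h1 in
lemma rem_of_notMem {u : P} (hu : u ∉ U2) : Promo.rem U2 u = U2 := by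
  unfold Promo.rem
  rw [filter_eq_self]
  intro x hx hxu
  exact hu (h2 x hx u hxu)

omit [Fintype P] in
lemma cardA1 {u : P} (hu : u ∈ U1 \ U2) :
    ((Promo.rem U1 u).card : ℤ) = (U1 \ U2).card + (U1 ∩ U2).card - 1 - dn (U1 \ U2) u := by
  have hu' := mem_sdiff.1 hu
  have e : U1.filter (fun w => w ≤ u) = insert u ((U1 \ U2).filter (fun w => w < u)) := by
    ext w
    simp only [mem_filter, mem_insert, mem_sdiff]
    constructor
    · rintro ⟨a, b⟩
      rcases b.eq_or_lt with rfl | b'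
      · exact Or.inl rfl
      · exact Or.inr ⟨⟨a, fun hw => hu'.2 (h2 w hw u b)⟩, b'⟩
    · rintro (rfl | ⟨⟨a, _⟩, b⟩)
      · exact ⟨hu'.1, le_rfl⟩
      · exact ⟨a, b.le⟩
  have e2 := card_filter_add_card_filter_not (s := U1) (fun w => w ≤ u)
  rw [e, card_insert_of_notMem (by simp)] at e2
  have e3 := card_split h1 h2
  unfold dn Promo.rem
  omega

omit [Fintype P] in
lemma cardA2 {u : P} (hu : u ∈ U1 \ U2) :
    ((Promo.rem U1 u ∩ Promo.rem U2 u).card : ℤ) = (U1 ∩ U2).card := by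
  have hu' := mem_sdiff.1 hu
  rw [rem_of_notMem h2 hu'.2]
  congr 2
  ext w
  simp only [Promo.rem, mem_inter, mem_filter]
  constructor
  · rintro ⟨⟨a, _⟩, b⟩; exact ⟨a, b⟩
  · rintro ⟨a, b⟩; exact ⟨⟨a, fun h => hu'.2 (h2 w b u h)⟩, b⟩

lemma cardA3 {u : P} (hu : u ∈ U1) :
    ((abv u).card : ℤ) = uf (U1 \ U2) u + uf (U1 ∩ U2) u := by
  unfold uf abv
  rw [← Nat.cast_add, ← card_union_of_disjoint]
  · congr 2
    ext w
    simp only [mem_filter, mem_univ, true_and, mem_union, mem_sdiff, mem_inter]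
    constructor
    · intro h
      have := h1 u hu w h.le
      by_cases hw : w ∈ U2
      · exact Or.inr ⟨⟨this, hw⟩, h⟩
      · exact Or.inl ⟨⟨this, hw⟩, h⟩
    · rintro (⟨_, h⟩ | ⟨_, h⟩) <;> exact h
  · apply disjoint_filter_filter
    exact disjoint_sdiff_inter U1 U2

lemma cardA4 {u : P} (hu : u ∈ U1 \ U2) :
    ((abv u ∩ Promo.rem U2 u).card : ℤ) = uf (U1 ∩ U2) u := by
  have hu' := mem_sdiff.1 hu
  rw [rem_of_notMem h2 hu'.2]
  unfold uf abv
  congr 2
  ext w
  simp only [mem_filter, mem_univ, true_and, mem_inter]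
  constructor
  · rintro ⟨a, b⟩; exact ⟨⟨h1 u hu'.1 w a.le, b⟩, a⟩
  · rintro ⟨⟨_, b⟩, a⟩; exact ⟨a, b⟩

lemma groupA : ∑ u ∈ U1 \ U2, (psi (Promo.rem U1 u) (Promo.rem U2 u)
      + psi (abv u) (Promo.rem U2 u)) ≤
    (U1 \ U2).card * psi U1 U2
      - (U1 \ U2).card * ((U1 ∩ U2).card + 2) * ((U1 ∩ U2).card + 1 + 2 * (U2 \ U1).card)
      + (U1 \ U2).card * ((U1 ∩ U2).card + 2) * ((U1 ∩ U2).card + 1)
        * ((U2 \ U1).card + (U1 ∩ U2).card)
      - ∑ u ∈ U1 \ U2, ((U1 ∩ U2).card - uf (U1 ∩ U2) u)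
          * ((U2 \ U1).card + (U1 ∩ U2).card)
          * (2 * (U1 ∩ U2).card - ((U1 ∩ U2).card - uf (U1 ∩ U2) u) + 3) := by
  set A := U1 \ U2 with hA
  set C := U1 ∩ U2 with hC
  set β : ℤ := ((U2 \ U1).card : ℤ) with hβ
  set α : ℤ := (A.card : ℤ) with hα
  set γ : ℤ := (C.card : ℤ) with hγ
  have hc1 : (U1.card : ℤ) = α + γ := card_split h1 h2
  have hc2 : (U2.card : ℤ) = β + γ := by
    have := card_split h2 h1
    rw [inter_comm] at this
    exact this
  have hβ0 : 0 ≤ β := by positivity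
  have key : ∀ u ∈ A, psi (Promo.rem U1 u) (Promo.rem U2 u) + psi (abv u) (Promo.rem U2 u)
      ≤ (psi U1 U2 - (γ + 2) * (γ + 1 + 2 * β) + (γ + 2) * (γ + 1) * (β + γ))
        - (γ + 2) * (γ + 1 + 2 * β) * dn A u + (γ + 2) * (γ + 1 + 2 * β) * uf A u
        - (γ - uf C u) * (β + γ) * (2 * γ - (γ - uf C u) + 3) := by
    intro u hu
    have hu' := mem_sdiff.1 hu
    have a1 := cardA1 h1 h2 hu
    have a2 := cardA2 h1 h2 hu
    have a3 := cardA3 h1 h2 hu'.1
    have a4 := cardA4 h1 h2 hu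
    have a5 : ((Promo.rem U2 u).card : ℤ) = β + γ := by
      rw [rem_of_notMem h2 hu'.2, hc2]
    unfold psi
    rw [a1, a2, a3, a4, a5, hc1, hc2, ← hC, ← hγ, ← hA, ← hα]
    have b1 := uf_nonneg A u
    have b2 := uf_nonneg C u
    have b3 : uf C u ≤ γ := uf_le_card C u
    obtain ⟨k, hk⟩ : ∃ k : ℤ, k = γ - uf C u := ⟨_, rfl⟩
    have hk0 : 0 ≤ k := by linarith
    have b4 : uf C u = γ - k := by linarith
    rw [b4]
    unfold Pf
    have b5 : 0 ≤ uf A u * (k * (2 * β + k - 1)) := by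
      apply mul_nonneg b1
      rcases hk0.eq_or_lt with h | h
      · rw [← h]; simp
      · apply mul_nonneg hk0; linarith
    nlinarith
  refine (sum_le_sum key).trans ?_
  rw [sum_sub_distrib, sum_add_distrib, sum_sub_distrib, ← mul_sum, ← mul_sum, sum_dn_eq,
    sum_const, nsmul_eq_mul]
  linarith

end groups

section C
variable {U1 U2 : Finset P} (h1 : Up U1) (h2 : Up U2)
include h1 h2

omit [Fintype P] in
lemma cardC1 {u : P} (hu : u ∈ U1 ∩ U2) :
    ((Promo.rem U1 u).card : ℤ) = ((U1 \ U2).card - dn (U1 \ U2) u)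
      + ((U1 ∩ U2).card - 1 - dn (U1 ∩ U2) u) := by
  have hu' := mem_inter.1 hu
  have e : U1.filter (fun w => w ≤ u) = insert u ((U1 \ U2).filter (fun w => w < u)
      ∪ (U1 ∩ U2).filter (fun w => w < u)) := by
    ext w
    simp only [mem_filter, mem_insert, mem_sdiff, mem_union, mem_inter]
    constructor
    · rintro ⟨a, b⟩
      rcases b.eq_or_lt with rfl | b'
      · exact Or.inl rfl
      · by_cases hw : w ∈ U2
        · exact Or.inr (Or.inr ⟨⟨a, hw⟩, b'⟩)
        · exact Or.inr (Or.inl ⟨⟨a, hw⟩, b'⟩)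
    · rintro (rfl | ⟨⟨a, _⟩, b⟩ | ⟨⟨a, _⟩, b⟩)
      · exact ⟨hu'.1, le_rfl⟩
      · exact ⟨a, b.le⟩
      · exact ⟨a, b.le⟩
  have e2 := card_filter_add_card_filter_not (s := U1) (fun w => w ≤ u)
  rw [e, card_insert_of_notMem (by simp), card_union_of_disjoint
    (disjoint_filter_filter (disjoint_sdiff_inter U1 U2))] at e2
  have e3 := card_split h1 h2
  unfold dn Promo.rem
  omega

omit [Fintype P] in
lemma cardC2 {u : P} (hu : u ∈ U1 ∩ U2) :
    ((Promo.rem U1 u ∩ Promo.rem U2 u).card : ℤ) =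
      ((U1 ∩ U2).card - 1 - dn (U1 ∩ U2) u) := by
  have hu' := mem_inter.1 hu
  have e0 : Promo.rem U1 u ∩ Promo.rem U2 u = Promo.rem (U1 ∩ U2) u := by
    ext w
    simp only [Promo.rem, mem_inter, mem_filter]
    tauto
  have e : (U1 ∩ U2).filter (fun w => w ≤ u) =
      insert u ((U1 ∩ U2).filter (fun w => w < u)) := by
    ext w
    simp only [mem_filter, mem_insert]
    constructor
    · rintro ⟨a, b⟩
      rcases b.eq_or_lt with rfl | b'
      · exact Or.inl rfl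
      · exact Or.inr ⟨a, b'⟩
    · rintro (rfl | ⟨a, b⟩)
      · exact ⟨hu, le_rfl⟩
      · exact ⟨a, b.le⟩
  have e2 := card_filter_add_card_filter_not (s := U1 ∩ U2) (fun w => w ≤ u)
  rw [e, card_insert_of_notMem (by simp)] at e2
  rw [e0]
  unfold dn Promo.rem
  omega

lemma cardC3 {u : P} (hu : u ∈ U1 ∩ U2) :
    ((abv u).card : ℤ) = uf (U1 ∩ U2) u := by
  have hu' := mem_inter.1 hu
  unfold uf abv
  congr 2
  ext w
  simp only [mem_filter, mem_univ, true_and, mem_inter]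
  exact ⟨fun h => ⟨⟨h1 u hu'.1 w h.le, h2 u hu'.2 w h.le⟩, h⟩, fun h => h.2⟩

lemma interC {u : P} (hu : u ∈ U1 ∩ U2) : abv u ∩ Promo.rem U2 u = abv u := by
  have hu' := mem_inter.1 hu
  rw [inter_eq_left]
  intro w hw
  simp only [abv, Promo.rem, mem_filter, mem_univ, true_and] at hw ⊢
  exact ⟨h2 u hu'.2 w hw.le, fun h => absurd (lt_of_lt_of_le hw h) (lt_irrefl _)⟩

omit h1 h2 in
omit [Fintype P] in
lemma swapσ (A C : Finset P) (f : P → ℤ) :
    ∑ u ∈ C, ((A.card : ℤ) - dn A u) * f u = ∑ x ∈ A, ∑ u ∈ C.filter (fun u => ¬ x < u), f u := by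
  have e : ∀ u, (A.card : ℤ) - dn A u = ∑ x ∈ A, (if ¬ x < u then 1 else 0) := by
    intro u
    have e2 := card_filter_add_card_filter_not (s := A) (fun w => w < u)
    rw [sum_boole]
    unfold dn
    push_cast
    have : ((A.filter (fun w => w < u)).card : ℤ) + ((A.filter (fun w => ¬ w < u)).card : ℤ)
      = A.card := by exact_mod_cast e2
    linarith
  simp only [e, sum_mul]
  rw [sum_comm]
  apply sum_congr rfl
  intro x _
  rw [sum_filter]
  apply sum_congr rfl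
  intro u _
  split_ifs <;> simp

omit h1 h2 in
omit [Fintype P] in
lemma cardK (C : Finset P) (x : P) :
    ((C.filter (fun u => ¬ x < u)).card : ℤ) = C.card - uf C x := by
  have e2 := card_filter_add_card_filter_not (s := C) (fun w => x < w)
  unfold uf
  omega

lemma groupC : ∑ u ∈ U1 ∩ U2, (psi (Promo.rem U1 u) (Promo.rem U2 u)
      + psi (abv u) (Promo.rem U2 u) + psi (Promo.rem U1 u) (abv u) + psi (abv u) (abv u)) ≤
    (U1 ∩ U2).card * ((U1 ∩ U2).card - 1) * ((U1 ∩ U2).card + 1) * ((U1 ∩ U2).card + 2)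
      + ∑ u ∈ U1 \ U2, ((U1 ∩ U2).card - uf (U1 ∩ U2) u)
          * ((U2 \ U1).card + (U1 ∩ U2).card)
          * (2 * (U1 ∩ U2).card - ((U1 ∩ U2).card - uf (U1 ∩ U2) u) + 3)
      + ∑ u ∈ U2 \ U1, ((U1 ∩ U2).card - uf (U1 ∩ U2) u)
          * ((U1 \ U2).card + (U1 ∩ U2).card)
          * (2 * (U1 ∩ U2).card - ((U1 ∩ U2).card - uf (U1 ∩ U2) u) + 3) := by
  set A := U1 \ U2 with hA
  set B := U2 \ U1 with hB
  set C := U1 ∩ U2 with hC
  set β : ℤ := (B.card : ℤ) with hβ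
  set α : ℤ := (A.card : ℤ) with hα
  set γ : ℤ := (C.card : ℤ) with hγ
  have hα0 : 0 ≤ α := by positivity
  have hβ0 : 0 ≤ β := by positivity
  have hγ0 : 0 ≤ γ := by positivity
  set F : P → ℤ := fun u => (γ - dn C u) * (γ - dn C u + 1) + (uf C u + 1) * (uf C u + 2) with hF
  set T : P → ℤ := fun u => ((γ - 1 - dn C u) * (γ - dn C u) * (γ - dn C u + 1)
      + 2 * (uf C u + 1) * (uf C u + 2) * (γ - 1 - dn C u)
      + uf C u * (uf C u + 1) * (uf C u + 2)) with hT
  have key : ∀ u ∈ C, psi (Promo.rem U1 u) (Promo.rem U2 u)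
      + psi (abv u) (Promo.rem U2 u) + psi (Promo.rem U1 u) (abv u) + psi (abv u) (abv u)
      ≤ T u + (α - dn A u) * F u + (β - dn B u) * F u
        + (γ + 1) * (β * (α - dn A u)) + (γ + 1) * (α * (β - dn B u)) := by
    intro u hu
    have c1 := cardC1 h1 h2 hu
    have c1' := cardC1 h2 h1 (by rwa [inter_comm])
    rw [inter_comm] at c1'
    have c2 := cardC2 h1 h2 hu
    have c3 := cardC3 h1 h2 hu
    have c4 := interC h1 h2 hu
    have c4' := interC h2 h1 (by rwa [inter_comm])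
    unfold psi
    rw [c4, inter_comm (Promo.rem U1 u) (abv u), c4', inter_self, c1, c1', c2, c3]
    rw [← hC, ← hγ, ← hA, ← hα, ← hB, ← hβ]
    have b1 : dn A u ≤ α := by
      unfold dn; rw [hα]; exact_mod_cast card_filter_le _ _
    have b2 : dn B u ≤ β := by
      unfold dn; rw [hβ]; exact_mod_cast card_filter_le _ _
    have b3 := dn_nonneg A u
    have b4 := dn_nonneg B u
    have b5 := dn_nonneg C u
    have b6 := dn_le hu
    obtain ⟨σ, hσ⟩ : ∃ σ : ℤ, σ = α - dn A u := ⟨_, rfl⟩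
    obtain ⟨τ, hτ⟩ : ∃ τ : ℤ, τ = β - dn B u := ⟨_, rfl⟩
    rw [← hσ, ← hτ, hF, hT]
    simp only []
    have d1 : 0 ≤ σ := by linarith
    have d2 : 0 ≤ τ := by linarith
    have d3 : σ ≤ α := by linarith
    have d4 : τ ≤ β := by linarith
    have d5 : 2 * σ * τ * (γ - 1 - dn C u + 2) ≤ (γ + 1) * (β * σ) + (γ + 1) * (α * τ) := by
      have f1 : σ * τ * (γ - 1 - dn C u + 2) ≤ σ * τ * (γ + 1) := by
        apply mul_le_mul_of_nonneg_left _ (by positivity)
        linarith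
      have f2 : σ * τ ≤ β * σ := by nlinarith
      have f3 : σ * τ ≤ α * τ := by nlinarith
      have f4 : σ * τ * (γ + 1) ≤ β * σ * (γ + 1) :=
        mul_le_mul_of_nonneg_right f2 (by linarith)
      have f5 : σ * τ * (γ + 1) ≤ α * τ * (γ + 1) :=
        mul_le_mul_of_nonneg_right f3 (by linarith)
      nlinarith
    unfold Pf
    nlinarith
  refine (sum_le_sum key).trans ?_
  simp only [sum_add_distrib, ← mul_sum]
  have hI := ineqI C
  have s1 := swapσ A C F
  have s2 := swapσ B C F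
  have s3 := swapσ A C (fun _ => 1)
  have s4 := swapσ B C (fun _ => 1)
  simp only [mul_one, sum_const, nsmul_eq_mul] at s3 s4
  rw [s1, s2, ← hα, ← hβ] at *
  have hk : ∀ x : P, ∑ u ∈ C.filter (fun u => ¬ x < u), F u ≤
      (γ - uf C x) * γ * (2 * γ - (γ - uf C x) + 3) := by
    intro x
    have := chordII (C := C) (K := C.filter (fun u => ¬ x < u)) (filter_subset _ _) (by
      intro u hu w hw hwu
      rw [mem_filter] at hu ⊢
      exact ⟨hw, fun h => hu.2 (h.trans hwu)⟩)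
    rw [cardK] at this
    refine this.trans ?_
    have b2 := uf_nonneg C x
    have b3 : uf C x ≤ γ := uf_le_card C x
    obtain ⟨k, hk⟩ : ∃ k : ℤ, k = γ - uf C x := ⟨_, rfl⟩
    rw [← hγ, ← hk]
    have hk0 : 0 ≤ k := by linarith
    have : 0 ≤ k * (k - 1) := by
      rcases hk0.eq_or_lt with h | h
      · rw [← h]; simp
      · apply mul_nonneg hk0; linarith
    nlinarith
  have tA : (∑ x ∈ A, ∑ u ∈ C.filter (fun u => ¬ x < u), F u)
      + (γ + 1) * (β * ∑ u ∈ C, (α - dn A u)) ≤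
      ∑ u ∈ A, (γ - uf C u) * (β + γ) * (2 * γ - (γ - uf C u) + 3) := by
    rw [s3, mul_sum, mul_sum, ← sum_add_distrib]
    apply sum_le_sum
    intro x _
    have := hk x
    rw [cardK, ← hγ]
    have b2 := uf_nonneg C x
    have b3 : uf C x ≤ γ := uf_le_card C x
    have : 0 ≤ β * ((γ - uf C x) * (uf C x + 2)) := by
      apply mul_nonneg hβ0; apply mul_nonneg <;> linarith
    nlinarith
  have tB : (∑ x ∈ B, ∑ u ∈ C.filter (fun u => ¬ x < u), F u)
      + (γ + 1) * (α * ∑ u ∈ C, (β - dn B u)) ≤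
      ∑ u ∈ B, (γ - uf C u) * (α + γ) * (2 * γ - (γ - uf C u) + 3) := by
    rw [s4, mul_sum, mul_sum, ← sum_add_distrib]
    apply sum_le_sum
    intro x _
    have := hk x
    rw [cardK, ← hγ]
    have b2 := uf_nonneg C x
    have b3 : uf C x ≤ γ := uf_le_card C x
    have : 0 ≤ α * ((γ - uf C x) * (uf C x + 2)) := by
      apply mul_nonneg hα0; apply mul_nonneg <;> linarith
    nlinarith
  rw [← hγ] at hI
  have hI' : ∑ u ∈ C, T u ≤ γ * (γ - 1) * (γ + 1) * (γ + 2) := hI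
  linarith

end C

/-- the step inequality -/
theorem step {U1 U2 : Finset P} (h1 : Up U1) (h2 : Up U2) :
    ∑ u ∈ U1 ∪ U2, (psi (Promo.rem U1 u) (Promo.rem U2 u)
      + (if u ∈ U1 then psi (abv u) (Promo.rem U2 u) else 0)
      + (if u ∈ U2 then psi (Promo.rem U1 u) (abv u) else 0)
      + (if u ∈ U1 ∧ u ∈ U2 then psi (abv u) (abv u) else 0))
      ≤ (((U1 ∪ U2).card : ℤ) - 1) * psi U1 U2 := by
  have hU : U1 ∪ U2 = ((U1 \ U2) ∪ (U2 \ U1)) ∪ (U1 ∩ U2) := by
    ext w; simp only [mem_union, mem_sdiff, mem_inter]; tauto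
  have hd1 : Disjoint ((U1 \ U2) ∪ (U2 \ U1)) (U1 ∩ U2) := by
    rw [disjoint_left]; intro w; simp only [mem_union, mem_sdiff, mem_inter]; tauto
  have hd2 : Disjoint (U1 \ U2) (U2 \ U1) := by
    rw [disjoint_left]; intro w; simp only [mem_sdiff]; tauto
  have gA := groupA h1 h2
  have gB := groupA h2 h1
  have gC := groupC h1 h2
  rw [inter_comm U2 U1] at gB
  have hc1 := card_split h1 h2
  have hc2 := card_split h2 h1
  rw [inter_comm U2 U1] at hc2
  rw [hU, sum_union hd1, sum_union hd2, card_union_of_disjoint hd1, card_union_of_disjoint hd2]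
  have eA : ∑ u ∈ U1 \ U2, (psi (Promo.rem U1 u) (Promo.rem U2 u)
      + (if u ∈ U1 then psi (abv u) (Promo.rem U2 u) else 0)
      + (if u ∈ U2 then psi (Promo.rem U1 u) (abv u) else 0)
      + (if u ∈ U1 ∧ u ∈ U2 then psi (abv u) (abv u) else 0)) =
      ∑ u ∈ U1 \ U2, (psi (Promo.rem U1 u) (Promo.rem U2 u)
      + psi (abv u) (Promo.rem U2 u)) := by
    apply sum_congr rfl
    intro u hu
    have := mem_sdiff.1 hu
    simp [this.1, this.2]
  have eB : ∑ u ∈ U2 \ U1, (psi (Promo.rem U1 u) (Promo.rem U2 u)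
      + (if u ∈ U1 then psi (abv u) (Promo.rem U2 u) else 0)
      + (if u ∈ U2 then psi (Promo.rem U1 u) (abv u) else 0)
      + (if u ∈ U1 ∧ u ∈ U2 then psi (abv u) (abv u) else 0)) =
      ∑ u ∈ U2 \ U1, (psi (Promo.rem U2 u) (Promo.rem U1 u)
      + psi (abv u) (Promo.rem U1 u)) := by
    apply sum_congr rfl
    intro u hu
    have := mem_sdiff.1 hu
    simp [this.1, this.2, psi_comm (Promo.rem U1 u)]
  have eC : ∑ u ∈ U1 ∩ U2, (psi (Promo.rem U1 u) (Promo.rem U2 u)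
      + (if u ∈ U1 then psi (abv u) (Promo.rem U2 u) else 0)
      + (if u ∈ U2 then psi (Promo.rem U1 u) (abv u) else 0)
      + (if u ∈ U1 ∧ u ∈ U2 then psi (abv u) (abv u) else 0)) =
      ∑ u ∈ U1 ∩ U2, (psi (Promo.rem U1 u) (Promo.rem U2 u)
      + psi (abv u) (Promo.rem U2 u) + psi (Promo.rem U1 u) (abv u) + psi (abv u) (abv u)) := by
    apply sum_congr rfl
    intro u hu
    have := mem_inter.1 hu
    simp [this.1, this.2]
  rw [eA, eB, eC, psi_comm U1 U2] at *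
  have hpsi : psi U2 U1 = Pf ((U2 \ U1).card + (U1 ∩ U2).card) ((U1 \ U2).card + (U1 ∩ U2).card)
      (U1 ∩ U2).card := by
    unfold psi; rw [hc1, hc2, inter_comm U2 U1]
  have hpsi' : psi U1 U2 = psi U2 U1 := psi_comm _ _
  push_cast
  generalize (∑ u ∈ U1 \ U2, ((((U1 ∩ U2).card : ℤ)) - uf (U1 ∩ U2) u)
          * ((U2 \ U1).card + (U1 ∩ U2).card)
          * (2 * (U1 ∩ U2).card - ((U1 ∩ U2).card - uf (U1 ∩ U2) u) + 3)) = SA at *
  generalize (∑ u ∈ U2 \ U1, ((((U1 ∩ U2).card : ℤ)) - uf (U1 ∩ U2) u)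
          * ((U1 \ U2).card + (U1 ∩ U2).card)
          * (2 * (U1 ∩ U2).card - ((U1 ∩ U2).card - uf (U1 ∩ U2) u) + 3)) = SB at *
  rw [hpsi', hpsi] at *
  unfold Pf at *
  nlinarith
end Pool.Agent.R543.Promo
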